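import Pool.Agent.V5helper35.AS.StmA

/-!
# Project AS, job POT: the order of an element in finite quotients
-/

set_option autoImplicit false

namespace Pool.Agent.V5helper69.AS

open Pool.Agent.R387.TC Pool.Agent.N77.CS
open Pool.Agent.V5helper35.AS

theorem t_POT (hC : S_CYC) : S_POT := by
  intro n w hw e he
  obtain ⟨Z, hZ, ρ, z, h1, h2⟩ := hC n w hw e he
  refine ⟨core n (Equiv.Perm Z), core_char _ _, core_fin _ _, fun i hi => ?_⟩
  have h3 : (ρ w) ^ i = 1 := by
    rw [← map_zpow]
    exact mem_core.1 hi ρ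
  have he' : (0 : ℤ) < e := by exact_mod_cast he
  obtain ⟨r, hr⟩ := Int.eq_ofNat_of_zero_le (Int.emod_nonneg i he'.ne')
  have hre : r < e := by
    have h4 := Int.emod_lt_of_pos i he'
    rw [hr] at h4
    exact_mod_cast h4
  have h4 : (ρ w) ^ i = (ρ w) ^ r * ((ρ w) ^ e) ^ (i / e) := by
    have h5 : i = (r : ℤ) + (e : ℤ) * (i / e) := by
      have h6 := Int.emod_add_mul_ediv i e
      rw [hr] at h6
      exact h6.symm
    conv_lhs => rw [h5]
    rw [zpow_add, zpow_natCast, zpow_mul, zpow_natCast]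
  have h5 : ((ρ w) ^ r) z = z := by
    have h6 : ((ρ w) ^ i) z = z := by
      rw [h3]
      rfl
    rw [h4, Equiv.Perm.mul_apply, Equiv.Perm.zpow_apply_eq_self_of_apply_eq_self h1] at h6
    exact h6
  have h6 : r = 0 := by
    by_contra hr0
    exact h2 r (Nat.pos_of_ne_zero hr0) hre h5
  rw [h6] at hr
  exact Int.dvd_of_emod_eq_zero hr

end Pool.Agent.V5helper69.AS
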